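import Mathlib
import Pool.Agent.H383Rdv.Prob

/-!
# MP_92dd55_pr: symmetric rendezvous on the complete graph (telephone problem)

A lower bound for the symmetric rendezvous value that is larger than the trivial `n/2` by a
constant factor: `0.59 n ≤ R^s(K_n) ≤ n` for all `n ≥ 3`, from an upper bound for the probability
that two players with a common strategy have met within `t` periods.
-/

open MeasureTheory

namespace Pool.Agent.Results.MP_92dd55_pr.LowerBound

open Pool.Agent.H383Rdv

theorem result :
    (∀ n : ℕ, 3 ≤ n → ENNReal.ofReal ((59 / 100 : ℝ) * n) ≤ symValue n) ∧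
    (∀ n : ℕ, 1 ≤ n → symValue n ≤ n) ∧
    (∀ n t : ℕ, 3 ≤ n → t ≤ n - 1 → ∀ μ : Measure (ℕ → Fin n), IsProbabilityMeasure μ →
      probMet n μ t ≤ (t : ℝ) / n - (t : ℝ) * (t - 1) / (n * (t + 2 * n - 2))
        + (t : ℝ) ^ 3 / (6 * n * (n - 1) * (n - 2))) :=
  ⟨fun n hn => symValue_ge n hn, fun n hn => symValue_le n hn,
    fun n t hn ht μ hμ => by haveI := hμ; exact probMet_le n t hn ht μ⟩

end Pool.Agent.Results.MP_92dd55_pr.LowerBound
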